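import Mathlib
import Pool.Agent.V1131.AlgEntropy2

open Finset Filter Topology
open scoped Pointwise Classical ENNReal
open Pool.Agent.V1131.AlgEntropy

namespace Pool.Agent.Results.MP_df8e9b_al.Monotone

/-- Sanity check for the definitions: `Halg G X` is the limit of `log |T_{F_i}(α, X)| / |F_i|`
along every right Folner net. -/
theorem limit_exists {G A : Type*} [Group G] [AddCommGroup A] [DistribMulAction G A]
    (hG : Amenable G) {X : Finset A} (hX : X.Nonempty) {I : Type*} [Preorder I]
    {F : I → Finset G} (hne : ∀ i, (F i).Nonempty)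
    (hF : ∀ g : G, Tendsto (fun i => ((symmDiff ((F i).image (fun s => s * g)) (F i)).card : ℝ) /
        (F i).card) atTop (𝓝 0)) :
    Tendsto (fun i => Real.log (∑ g ∈ F i, g • X).card / (F i).card) atTop (𝓝 (Halg G X)) :=
  tendsto_Halg hG hX (Filter.Eventually.of_forall hne) hF

/-- **Main result.** For every amenable group `G`, every action `α` of `G` on an abelian group and
every subgroup `H` one has `h_alg(α) ≤ h_alg(α|H)` and `ent(α) ≤ ent(α|H)`; more generally
`n h_alg(α) ≤ h_alg(α|H)` and `n ent(α) ≤ ent(α|H)` for every natural number `n ≤ [G : H]`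
(every `n` if the index is infinite). -/
theorem result {G A : Type*} [Group G] [AddCommGroup A] [DistribMulAction G A]
    (hG : Amenable G) (H : Subgroup G) :
    (halg G A ≤ halg H A ∧ ent G A ≤ ent H A) ∧
      ∀ n : ℕ, (n ≤ H.index ∨ H.index = 0) →
        n * halg G A ≤ halg H A ∧ n * ent G A ≤ ent H A :=
  ⟨halg_le hG H, fun n hn => index_mul_le hG H n hn⟩

end Pool.Agent.Results.MP_df8e9b_al.Monotone
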